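import Pool.Agent.Helper492_MA.Gal

/-!
# Groups of semilinear automorphisms and actions with finite cyclic orbits

`C` is any class of groups with the closure properties `ClosedE C` which contains the solvable groups, all
of which is known for the class of the groups that satisfy the A-theoretic Farrell-Jones Conjecture with
coefficients and finite wreath products. This class contains the groups `GLₘ(ℚ)` and `GLₘ(𝔽_p(t))`.

(1) Let `M` be a finitely generated module over a commutative ring `R` such that for every weakly
associated prime `Q` of `M` the domain `R/Q` embeds into an algebraic extension of a field `F` with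
`GLₘ(F)` in `C` for all `m`. Let `G` be a group which acts faithfully on `M` by semilinear maps, with
respect to an action `ρ` of `G` on the ring `R`. If `ρ(G)` is in `C` and every `ρ(g)` has finite orbits on
`R`, then `G` is in `C`.

(2) In particular, let `K` be an algebraic extension of a field `F` with `GLₘ(F)` in `C` for all `m`. Every
group `G` which acts faithfully and semilinearly on a finite-dimensional vector space over `K`, with an
image in the Galois group `Aut(K/F)` which is in `C`, is in `C`.

(3) Let `N` be a normal subgroup of `G` such that `N` and `G/N` are in `C`. Suppose that for every `g` in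
`G` some element `g^k n`, `k > 0`, `n` in `N`, acts on `N` by conjugation with finite orbits. Then `G` is
in `C`. So `N ⋊ Γ` is in `C` for `N`, `Γ` in `C` if each element of `Γ` acts on `N` with finite orbits.

Outline of the proof of (1). By the extension criterion one may assume that `ρ(G)` is generated by one
element `γ`. Let `B` be the fixed ring of `γ`. Every element of `R` is integral over `B`, as its orbit is
finite. For a finite subset `s` of `R` the `B`-algebra `R_s` generated by the orbits of the elements of `s`
is a finitely generated `B`-module and `γ`-invariant. Let `T` be a finite set of generators of `M`. The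
group `G` is the directed union of the groups of the elements `g` for which `g` and its inverse map `T` into
`R_s T`. Such a group acts by `B`-linear maps on the finitely generated `B`-module `R_s T`, with an abelian
kernel, so that the theorem on automorphism groups of finitely generated modules over commutative rings
(MP_9d1ffa_al.ModuleAutomorphisms) applies; the weakly associated primes of the `B`-module are contractions
of weakly associated primes of `M`.
-/

set_option autoImplicit false

namespace Pool.Agent.Results.MP_59dd5b_al.SemilinearGroups

open Pool.Agent.Y110.FJ Pool.Agent.Helper492_MA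

/-- statement (1) -/
def ModuleCase (C : ∀ (G : Type) [Group G], Prop) : Prop :=
  ∀ (R M G : Type) [CommRing R] [AddCommGroup M] [Module R M] [Module.Finite R M] [Group G]
    [DistribMulAction G M] [FaithfulSMul G M] (ρ : G →* (R ≃+* R)), Semi ρ M →
    (∀ (g : G) (r : R), ∃ k : ℕ, 0 < k ∧ ((ρ g) ^ k) r = r) → C ρ.range →
    (∀ Q ∈ wAss R M, Lin C (R ⧸ Q)) → C G

/-- statement (2) -/
def FieldCase (C : ∀ (G : Type) [Group G], Prop) : Prop :=
  ∀ (F K V G : Type) [Field F] [Field K] [Algebra F K] [Algebra.IsAlgebraic F K] [AddCommGroup V]
    [Module K V] [Module.Finite K V] [Group G] [DistribMulAction G V] [FaithfulSMul G V]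
    (ρ : G →* (K ≃+* K)), Semi ρ V →
    (∀ (g : G) (a : F), ρ g (algebraMap F K a) = algebraMap F K a) → C ρ.range →
    (∀ m : ℕ, C (GL (Fin m) F)) → C G

/-- statement (3) -/
def OrbitCriterion (C : ∀ (G : Type) [Group G], Prop) : Prop :=
  ∀ (G : Type) [Group G] (N : Subgroup G) [N.Normal], C N → C (G ⧸ N) →
    (∀ g : G, ∃ (k : ℕ) (n : G), 0 < k ∧ n ∈ N ∧
      ∀ x ∈ N, ∃ m : ℕ, 0 < m ∧ (g ^ k * n) ^ m * x = x * (g ^ k * n) ^ m) → C G

theorem result (C : ∀ (G : Type) [Group G], Prop) (hC : ClosedE C)
    (hS : ∀ (S : Type) [Group S], Group.IsSolvable S → C S) :
    ModuleCase C ∧ FieldCase C ∧ OrbitCriterion C := by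
  refine ⟨?_, ?_, ?_⟩
  · intro R M G _ _ _ _ _ _ _ ρ hρ hfin hQ h
    exact semi_main hC hS hρ hfin hQ h
  · intro F K V G _ _ _ _ _ _ _ _ _ _ ρ hρ hF hQ h
    exact semi_field (F := F) hC hS hρ hF hQ h
  · intro G _ N _ hN hQ h
    exact orb_main hC N hN hQ h

end Pool.Agent.Results.MP_59dd5b_al.SemilinearGroups
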